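import Pool.Agent.N225.CV.Drop
import Pool.Agent.N162.CV.Stm
import Pool.Agent.H952R2.Sextic.CommonZero

/-!
All relations between the coordinates of the generic point of a smooth surface follow from the
equation of the surface (CV/IRR).
-/

set_option autoImplicit false

namespace Pool.Agent.N225.CV

open MvPolynomial

/-! ### homogeneous polynomials -/

theorem aeval_line {n : ℕ} (x : Fin n → ℂ) (A : MvPolynomial (Fin n) ℂ) (t : ℂ) :
    (aeval (fun i => Polynomial.C (x i) * Polynomial.X : Fin n → Polynomial ℂ) A).eval t =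
      eval (fun i => x i * t) A := by
  induction A using MvPolynomial.induction_on with
  | C a =>
    rw [aeval_C, eval_C]
    change (Polynomial.C a).eval t = a
    rw [Polynomial.eval_C]
  | add p q hp hq => rw [map_add, Polynomial.eval_add, hp, hq, map_add]
  | mul_X p i hp =>
    rw [map_mul, Polynomial.eval_mul, hp, map_mul, aeval_X, eval_X, Polynomial.eval_mul,
      Polynomial.eval_C, Polynomial.eval_X]

theorem aeval_scale {K : Type*} [CommRing K] [Algebra ℂ K] {m : ℕ} {H : MvPolynomial (Fin m) ℂ}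
    {e : ℕ} (hH : H.IsHomogeneous e) (c : K) (x : Fin m → K) :
    aeval (fun i => c * x i) H = c ^ e * aeval x H := by
  rw [aeval_def, eval₂_eq', aeval_def, eval₂_eq', Finset.mul_sum]
  refine Finset.sum_congr rfl fun s hs => ?_
  have h1 : ∑ i, s i = e := by
    have h2 := hH (mem_support_iff.mp hs)
    rw [← h2, Finsupp.weight_apply, Finsupp.sum_fintype _ _ (by simp)]
    simp
  have h3 : ∏ i, (c * x i) ^ s i = c ^ e * ∏ i, x i ^ s i := by
    simp_rw [mul_pow]
    rw [Finset.prod_mul_distrib, Finset.prod_pow_eq_pow_sum, h1]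
  rw [h3]; ring

theorem eval_scale {m : ℕ} {H : MvPolynomial (Fin m) ℂ}
    {e : ℕ} (hH : H.IsHomogeneous e) (c : ℂ) (x : Fin m → ℂ) :
    eval (fun i => c * x i) H = c ^ e * eval x H := by
  have h := aeval_scale hH c x
  rw [aeval_eq_eval, aeval_eq_eval] at h
  exact h

/-- a factor of a form which does not vanish at the origin is constant -/
theorem unit_of_const {n : ℕ} {F A B : MvPolynomial (Fin n) ℂ} {d : ℕ} (hF : F.IsHomogeneous d)
    (hF0 : F ≠ 0) (hAB : F = A * B) (hB : eval 0 B ≠ 0) : IsUnit B := by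
  have key : ∀ x : Fin n → ℂ, eval x F ≠ 0 → eval x B = eval 0 B := by
    intro x hx
    set f : Polynomial ℂ :=
      aeval (fun i => Polynomial.C (x i) * Polynomial.X : Fin n → Polynomial ℂ) A with hf
    set g : Polynomial ℂ :=
      aeval (fun i => Polynomial.C (x i) * Polynomial.X : Fin n → Polynomial ℂ) B with hg
    have hg0 : g.eval 0 = eval 0 B := by
      rw [hg, aeval_line]
      congr 1
      congr 1
      funext i
      exact mul_zero _
    have hg1 : g.eval 1 = eval x B := by
      rw [hg, aeval_line]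
      congr 1
      congr 1
      funext i
      exact mul_one _
    have hfg : f * g = Polynomial.C (eval x F) * Polynomial.X ^ d := by
      apply Polynomial.funext
      intro t
      rw [hf, hg, ← map_mul, ← hAB, aeval_line, Polynomial.eval_mul, Polynomial.eval_C,
        Polynomial.eval_pow, Polynomial.eval_X]
      have h1 : (fun i => x i * t) = fun i => t * x i := by
        funext i
        ring
      rw [h1, eval_scale hF]
      ring
    have hX : ¬ Polynomial.X ∣ g := by
      rw [Polynomial.X_dvd_iff, Polynomial.coeff_zero_eq_eval_zero, hg0]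
      exact hB
    have hdvd : Polynomial.X ^ d ∣ f * g := by
      rw [hfg]
      exact Dvd.intro_left _ rfl
    obtain ⟨f', hf'⟩ := Polynomial.prime_X.pow_dvd_of_dvd_mul_right d hX hdvd
    have h2 : f' * g = Polynomial.C (eval x F) := by
      have h3 : Polynomial.X ^ d * (f' * g) = Polynomial.X ^ d * Polynomial.C (eval x F) := by
        rw [← mul_assoc, ← hf', hfg, mul_comm]
      exact mul_left_cancel₀ (pow_ne_zero d Polynomial.X_ne_zero) h3
    have hne : f' ≠ 0 ∧ g ≠ 0 := by
      constructor
      · rintro h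
        rw [h, zero_mul] at h2
        exact hx (Polynomial.C_eq_zero.1 h2.symm)
      · intro h
        rw [h, mul_zero] at h2
        exact hx (Polynomial.C_eq_zero.1 h2.symm)
    have h4 := Polynomial.natDegree_mul hne.1 hne.2
    rw [h2, Polynomial.natDegree_C] at h4
    have h5 : g.natDegree = 0 := by omega
    obtain ⟨c, hc⟩ := Polynomial.natDegree_eq_zero.1 h5
    rw [← hc, Polynomial.eval_C] at hg0 hg1
    rw [← hg1, hg0]
  have h0 : (B - C (eval 0 B)) * F = 0 := by
    apply MvPolynomial.funext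
    intro x
    rw [map_mul, map_sub, eval_C, map_zero]
    by_cases hx : eval x F = 0
    · rw [hx, mul_zero]
    · rw [key x hx, sub_self, zero_mul]
  have h1 : B = C (eval 0 B) := by
    rcases mul_eq_zero.1 h0 with h | h
    · exact sub_eq_zero.1 h
    · exact absurd h hF0
  rw [h1]
  exact (Ne.isUnit hB).map C

/-- smooth hypersurfaces of dimension at least one are irreducible -/
theorem irreducible_of_smooth {n : ℕ} (hn : 2 < n) {F : MvPolynomial (Fin n) ℂ} {d : ℕ}
    (hd : 1 ≤ d) (hF : F.IsHomogeneous d) (hF0 : F ≠ 0)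
    (hsm : Pool.Agent.Y184.NT.Sm F) : Irreducible F := by
  have hc : eval 0 F = 0 := by
    have h3 := eval_scale hF 0 (0 : Fin n → ℂ)
    have h4 : (fun i => (0 : ℂ) * (0 : Fin n → ℂ) i) = 0 := by
      funext i
      exact zero_mul _
    rw [h4, zero_pow (by omega), zero_mul] at h3
    exact h3
  refine ⟨?_, ?_⟩
  · intro hu
    have h1 := hu.map (eval (0 : Fin n → ℂ))
    rw [hc] at h1
    exact not_isUnit_zero h1
  · intro A B hAB
    by_contra hcon
    push Not at hcon
    have hB : eval 0 B = 0 := by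
      by_contra h
      exact hcon.2 (unit_of_const hF hF0 hAB h)
    have hA : eval 0 A = 0 := by
      by_contra h
      exact hcon.1 (unit_of_const hF hF0 (by rw [mul_comm]; exact hAB) h)
    obtain ⟨z, hz, h⟩ := Pool.Agent.H952R2.Sextic.exists_common_zero (K := ℂ) (ι := Fin n)
      (κ := Fin 2) (by rw [Fintype.card_fin, Fintype.card_fin]; exact hn) ![A, B] (by
        intro i
        fin_cases i
        · exact hA
        · exact hB)
    have hzA : eval z A = 0 := h 0
    have hzB : eval z B = 0 := h 1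
    obtain ⟨l, hl⟩ := hsm z hz
    apply hl
    rw [hAB, Derivation.leibniz, map_add, smul_eq_mul, smul_eq_mul, map_mul, map_mul, hzA, hzB]
    ring

/-! ### dehomogenisation -/

noncomputable section

variable {r : ℕ}

/-- dehomogenisation -/
def dh : MvPolynomial (Fin (r + 1)) ℂ →ₐ[ℂ] MvPolynomial (Fin r) ℂ := aeval (Fin.cons 1 X)

/-- homogenisation in degree `n` -/
def hm (n : ℕ) (P : MvPolynomial (Fin r) ℂ) : MvPolynomial (Fin (r + 1)) ℂ :=
  ∑ k ∈ Finset.range (n + 1), X 0 ^ (n - k) * rename Fin.succ (homogeneousComponent k P)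

lemma hm_hom (n : ℕ) (P : MvPolynomial (Fin r) ℂ) : (hm n P).IsHomogeneous n := by
  apply IsHomogeneous.sum
  intro k hk
  have hk' : k ≤ n := by
    have := Finset.mem_range.mp hk
    omega
  have h := ((isHomogeneous_X ℂ (0 : Fin (r + 1))).pow (n - k)).mul
    ((homogeneousComponent_isHomogeneous k P).rename_isHomogeneous (f := Fin.succ))
  have e : 1 * (n - k) + k = n := by omega
  rwa [e] at h

lemma dh_rename (Q : MvPolynomial (Fin r) ℂ) : dh (rename Fin.succ Q) = Q := by
  unfold dh
  rw [aeval_rename]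
  have : (Fin.cons 1 X : Fin (r + 1) → MvPolynomial (Fin r) ℂ) ∘ Fin.succ = X := by
    funext i
    simp
  rw [this, aeval_X_left_apply]

lemma dh_X0 : dh (X 0 : MvPolynomial (Fin (r + 1)) ℂ) = 1 := by
  unfold dh
  rw [aeval_X]; rfl

lemma dh_hm {n : ℕ} {P : MvPolynomial (Fin r) ℂ} (h : P.totalDegree ≤ n) : dh (hm n P) = P := by
  unfold hm
  rw [map_sum]
  have h1 : ∀ k ∈ Finset.range (n + 1), dh (X 0 ^ (n - k) * rename Fin.succ (homogeneousComponent k P))
      = homogeneousComponent k P := by
    intro k _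
    rw [map_mul, map_pow, dh_X0, dh_rename, one_pow, one_mul]
  rw [Finset.sum_congr rfl h1]
  conv_rhs => rw [← sum_homogeneousComponent P]
  symm
  apply Finset.sum_subset
  · intro k hk
    have := Finset.mem_range.mp hk
    exact Finset.mem_range.mpr (by omega)
  · intro k _ hk
    have : P.totalDegree < k := by
      by_contra hc
      exact hk (Finset.mem_range.mpr (by omega))
    exact homogeneousComponent_eq_zero _ _ this

/-- substitution in the dehomogenised polynomial -/
lemma aeval_dh {A : Type*} [CommRing A] [Algebra ℂ A] (y : Fin (r + 1) → A) (h0 : y 0 = 1)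
    (P : MvPolynomial (Fin (r + 1)) ℂ) :
    aeval (fun i => y (Fin.succ i)) (dh P) = aeval y P := by
  have : (aeval (fun i : Fin r => y (Fin.succ i))).comp dh = (aeval y : _ →ₐ[ℂ] A) := by
    apply MvPolynomial.algHom_ext
    intro i
    rw [AlgHom.comp_apply, aeval_X]
    unfold dh
    rw [aeval_X]
    cases i using Fin.cases with
    | zero => rw [Fin.cons_zero, map_one, h0]
    | succ i => rw [Fin.cons_succ, aeval_X]
  rw [← this]; rfl

/-- a form with zero dehomogenisation is zero -/
lemma dh_inj {H : MvPolynomial (Fin (r + 1)) ℂ} {e : ℕ} (hH : H.IsHomogeneous e)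
    (h : dh H = 0) : H = 0 := by
  have h1 : X 0 * H = 0 := by
    apply MvPolynomial.funext
    intro y
    rw [map_mul, eval_X, map_zero]
    by_cases hy : y 0 = 0
    · rw [hy, zero_mul]
    · have h2 := eval_scale hH (y 0) (fun i => (y 0)⁻¹ * y i)
      have h3 : (fun i => y 0 * ((y 0)⁻¹ * y i)) = y := by
        funext i
        rw [mul_inv_cancel_left₀ hy]
      rw [h3] at h2
      have h4 := aeval_dh (fun i => (y 0)⁻¹ * y i) (inv_mul_cancel₀ hy) H
      rw [h, map_zero] at h4
      have h5 : eval (fun i => (y 0)⁻¹ * y i) H = 0 := by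
        rw [← aeval_eq_eval]
        exact h4.symm
      rw [h2, h5, mul_zero, mul_zero]
  exact (mul_eq_zero.1 h1).resolve_left (X_ne_zero _)

/-- homogeneous forms of the same degree with the same dehomogenisation are equal -/
lemma hom_eq {H H' : MvPolynomial (Fin (r + 1)) ℂ} {e : ℕ} (hH : H.IsHomogeneous e)
    (hH' : H'.IsHomogeneous e) (h : dh H = dh H') : H = H' := by
  rw [← sub_eq_zero]
  refine dh_inj (hH.sub hH') ?_
  rw [map_sub, h, sub_self]

variable {d : ℕ} {F : MvPolynomial (Fin (r + 1)) ℂ}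

lemma not_dvd_X0 (hF : F.IsHomogeneous d) (hd : 2 ≤ d) (hirr : Irreducible F) (a : ℕ) :
    ¬ F ∣ (X 0 : MvPolynomial (Fin (r + 1)) ℂ) ^ a := by
  intro h
  have hp : Prime F := hirr.prime
  have h1 := hp.dvd_of_dvd_pow h
  obtain ⟨G, hG⟩ := h1
  have hX : (X 0 : MvPolynomial (Fin (r + 1)) ℂ) ≠ 0 := X_ne_zero _
  have hG0 : G ≠ 0 := by rintro rfl; rw [mul_zero] at hG; exact hX hG
  have h2 := congrArg totalDegree hG
  rw [totalDegree_X, totalDegree_mul_of_isDomain hp.ne_zero hG0, hF.totalDegree hp.ne_zero] at h2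
  omega

/-- divisibility by the dehomogenised equation -/
lemma dvd_iff (hF : F.IsHomogeneous d) (hd : 2 ≤ d) (hirr : Irreducible F)
    {H : MvPolynomial (Fin (r + 1)) ℂ} {e : ℕ} (hH : H.IsHomogeneous e) :
    dh F ∣ dh H ↔ F ∣ H := by
  constructor
  · rintro ⟨T, hT⟩
    have hT' := dh_hm (le_refl T.totalDegree)
    set n := T.totalDegree with hn
    have h1 : dh (X 0 ^ (d + n) * H) = dh (X 0 ^ e * (F * hm n T)) := by
      rw [map_mul, map_pow, dh_X0, one_pow, one_mul, map_mul, map_pow, dh_X0, one_pow, one_mul,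
        map_mul, hT', hT]
    have h2 : (X 0 ^ (d + n) * H : MvPolynomial (Fin (r + 1)) ℂ).IsHomogeneous (d + n + e) := by
      have := ((isHomogeneous_X ℂ (0 : Fin (r + 1))).pow (d + n)).mul hH
      rwa [one_mul] at this
    have h3 : (X 0 ^ e * (F * hm n T) : MvPolynomial (Fin (r + 1)) ℂ).IsHomogeneous (d + n + e) := by
      have := ((isHomogeneous_X ℂ (0 : Fin (r + 1))).pow e).mul (hF.mul (hm_hom n T))
      rw [one_mul] at this
      rwa [show e + (d + n) = d + n + e by ring] at this
    have h4 := hom_eq h2 h3 h1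
    have h5 : F ∣ X 0 ^ (d + n) * H := ⟨X 0 ^ e * hm n T, by rw [h4]; ring⟩
    exact (hirr.prime.dvd_or_dvd h5).resolve_left (not_dvd_X0 hF hd hirr _)
  · rintro ⟨G, rfl⟩
    exact ⟨dh G, by rw [map_mul]⟩

lemma prime_dh (hF : F.IsHomogeneous d) (hd : 2 ≤ d) (hirr : Irreducible F) :
    Prime (dh F) := by
  refine ⟨?_, ?_, ?_⟩
  · intro h
    exact hirr.ne_zero (dh_inj hF h)
  · intro h
    have h1 : dh F ∣ dh (1 : MvPolynomial (Fin (r + 1)) ℂ) := by
      rw [map_one]; exact h.dvd
    have h2 := (dvd_iff hF hd hirr (isHomogeneous_one _ _)).mp h1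
    exact not_dvd_X0 hF hd hirr 0 (by rwa [pow_zero])
  · intro P Q h
    have hP := dh_hm (le_refl P.totalDegree)
    have hQ := dh_hm (le_refl Q.totalDegree)
    rw [← hP, ← hQ, ← map_mul, dvd_iff hF hd hirr ((hm_hom _ _).mul (hm_hom _ _))] at h
    rcases hirr.prime.dvd_or_dvd h with h1 | h1
    · left
      rw [← hP]
      exact (dvd_iff hF hd hirr (hm_hom _ _)).mpr h1
    · right
      rw [← hQ]
      exact (dvd_iff hF hd hirr (hm_hom _ _)).mpr h1

end

/-! ### the generic point -/

/-- among generators of the field there is a transcendence basis -/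
theorem exists_pair {K : Type} [Field K] [Algebra ℂ K] {ι : Type} (x : ι → K)
    (hx : IntermediateField.adjoin ℂ (Set.range x) = ⊤) {n : ℕ} (ht : Algebra.trdeg ℂ K = n) :
    ∃ s : Fin n → ι, AlgebraicIndependent ℂ (fun i => x (s i)) := by
  have halg : Algebra.IsAlgebraic (Algebra.adjoin ℂ (Set.range x)) K := by
    rw [← IntermediateField.isAlgebraic_adjoin_iff_top, hx, Algebra.isAlgebraic_iff_isIntegral]
    exact Algebra.isIntegral_of_surjective IntermediateField.topEquiv.surjective
  obtain ⟨t, hts, hb⟩ := exists_isTranscendenceBasis_subset (R := ℂ) (Set.range x)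
  have h1 : Cardinal.mk (Fin n) = Cardinal.mk t := by
    rw [hb.cardinalMk_eq_trdeg, ht, Cardinal.mk_fin]
  obtain ⟨e⟩ := Cardinal.eq.1 h1
  choose s hs using fun i : Fin n => hts (e i).2
  refine ⟨s, ?_⟩
  have h2 : (fun i => x (s i)) = (fun a : t => (a : K)) ∘ e := by
    funext i
    exact hs i
  rw [h2]
  exact hb.1.comp e e.injective

theorem irr_ : Pool.Agent.N162.CV.StIRR := by
  intro K _ _ F d x hsm hF hd hx0 hxF hgen htr P hP L _ _ q hq0 hqF
  have hF0 : F ≠ 0 := by
    rintro rfl
    obtain ⟨l, hl⟩ := hsm (fun _ => 1) (fun h => one_ne_zero (congrFun h 0))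
    rw [map_zero, map_zero] at hl
    exact hl rfl
  have hirr := irreducible_of_smooth (by norm_num) (by omega) hF hF0 hsm
  have hpr := prime_dh hF hd hirr
  set F1 : MvPolynomial (Fin 3) ℂ := dh F with hF1
  have hI : (Ideal.span {F1}).IsPrime := (Ideal.span_singleton_prime hpr.ne_zero).2 hpr
  -- the coordinate ring has transcendence degree at most 2
  have hB : Algebra.trdeg ℂ (MvPolynomial (Fin 3) ℂ ⧸ Ideal.span {F1}) ≤ (2 : ℕ) := by
    refine trdeg_le_of fun s hs => ?_
    choose s' hs' using fun i => Ideal.Quotient.mkₐ_surjective ℂ (Ideal.span {F1}) (s i)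
    have h1 := drop (Ideal.Quotient.mkₐ ℂ (Ideal.span {F1})) (n := 3) (by simp) (by
      intro hinj
      have h2 : Ideal.Quotient.mkₐ ℂ (Ideal.span {F1}) F1 =
          Ideal.Quotient.mkₐ ℂ (Ideal.span {F1}) 0 := by
        rw [map_zero]
        exact Ideal.Quotient.eq_zero_iff_mem.2 (Ideal.mem_span_singleton_self _)
      exact hpr.ne_zero (hinj h2)) s'
    apply h1
    have h3 : (Ideal.Quotient.mkₐ ℂ (Ideal.span {F1})) ∘ s' = s := funext hs'
    rw [h3]
    exact hs
  -- the map to `K`
  have hx' := aeval_dh x hx0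
  let φ : (MvPolynomial (Fin 3) ℂ ⧸ Ideal.span {F1}) →ₐ[ℂ] K :=
    Ideal.Quotient.liftₐ _ (aeval fun i : Fin 3 => x (Fin.succ i)) (by
      intro a ha
      obtain ⟨b, rfl⟩ := Ideal.mem_span_singleton.1 ha
      rw [map_mul, hF1, hx', hxF, zero_mul])
  have hφ : ∀ a, φ (Ideal.Quotient.mk _ a) = aeval (fun i : Fin 3 => x (Fin.succ i)) a :=
    fun a => rfl
  have hinj : Function.Injective φ := by
    by_contra hni
    obtain ⟨s, hs⟩ := exists_pair x hgen (n := 2) (by simpa using htr)
    have h1 := drop φ hB hni (fun i => Ideal.Quotient.mk _ (dh (X (s i))))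
    apply h1
    have h2 : φ ∘ (fun i => Ideal.Quotient.mk (Ideal.span {F1}) (dh (X (s i)))) =
        fun i => x (s i) := by
      funext i
      rw [Function.comp_apply, hφ, hx', aeval_X]
    rw [h2]
    exact hs
  have h3 : Ideal.Quotient.mk (Ideal.span {F1}) (dh P) = 0 := by
    apply hinj
    rw [hφ, hx', hP, map_zero]
  obtain ⟨Q, hQ⟩ := Ideal.mem_span_singleton.1 (Ideal.Quotient.eq_zero_iff_mem.1 h3)
  rw [← aeval_dh q hq0, hQ, map_mul, hF1, aeval_dh q hq0, hqF, zero_mul]

end Pool.Agent.N225.CV
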