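import Pool.Agent.N225.CV.Drop
import Pool.Agent.N162.CV.Stm

/-!
A point of a smooth surface with nonzero Jacobian is a generic point (CV/ND).
-/

set_option autoImplicit false

namespace Pool.Agent.N225.CV

open MvPolynomial

/-- a derivation which kills a subfield kills the elements which are algebraic over it -/
theorem der_alg {Ω : Type} [Field Ω] [Algebra ℂ Ω] (E : Derivation ℂ Ω Ω)
    (L : IntermediateField ℂ Ω) (hL : ∀ l ∈ L, E l = 0) {b : Ω} (hb : IsAlgebraic L b) :
    E b = 0 := by
  have : CharZero Ω := charZero_of_injective_algebraMap (algebraMap ℂ Ω).injective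
  let E' : Derivation L Ω Ω :=
    { toFun := E
      map_add' := map_add E
      map_smul' := fun l z => by
        rw [Algebra.smul_def, RingHom.id_apply, Algebra.smul_def, Derivation.leibniz]
        have h1 : E (algebraMap L Ω l) = 0 := hL _ l.2
        rw [h1, smul_zero, add_zero, smul_eq_mul]
      map_one_eq_zero' := by
        change E 1 = 0
        exact E.map_one_eq_zero
      leibniz' := fun z w => by
        change E (z * w) = _
        rw [Derivation.leibniz]
        rfl }
  have h1 : IsIntegral L b := hb.isIntegral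
  have h2 := Derivation.map_aeval E' (minpoly L b) b
  rw [minpoly.aeval, map_zero] at h2
  have h3 : Polynomial.aeval b (Polynomial.derivative (minpoly L b)) ≠ 0 := by
    have h4 : (minpoly L b).Separable := (minpoly.irreducible h1).separable
    exact h4.aeval_derivative_ne_zero (minpoly.aeval L b)
  have h5 : E' b = 0 := by
    rcases smul_eq_zero.1 h2.symm with h | h
    · exact absurd h h3
    · exact h
  exact h5

/-- the Jacobian of two dependent elements is zero -/
theorem minor {Ω : Type} [Field Ω] [Algebra ℂ Ω] (D₀ D₁ : Derivation ℂ Ω Ω) (a b : Ω)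
    (h : ¬ AlgebraicIndependent ℂ ![a, b]) : D₀ a * D₁ b = D₁ a * D₀ b := by
  let E : Derivation ℂ Ω Ω := D₀ a • D₁ - D₁ a • D₀
  have hE : ∀ z, E z = D₀ a * D₁ z - D₁ a * D₀ z := fun z => rfl
  let L : IntermediateField ℂ Ω := IntermediateField.adjoin ℂ {a}
  have hL : ∀ l ∈ L, E l = 0 := by
    intro l hl
    induction hl using IntermediateField.adjoin_induction with
    | mem z hz =>
      rw [Set.mem_singleton_iff.1 hz, hE]
      ring
    | algebraMap c => exact E.map_algebraMap c
    | add z w _ _ hz hw => rw [map_add, hz, hw, add_zero]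
    | inv z _ hz => rw [Derivation.leibniz_inv, hz, smul_zero]
    | mul z w _ _ hz hw => rw [Derivation.leibniz, hz, hw, smul_zero, smul_zero, add_zero]
  by_cases ha : IsAlgebraic ℂ a
  · have h0 : ∀ D : Derivation ℂ Ω Ω, D a = 0 := by
      intro D
      refine der_alg D ⊥ ?_ (ha.tower_top (K := ℂ) (L := (⊥ : IntermediateField ℂ Ω)))
      intro l hl
      obtain ⟨c, rfl⟩ := IntermediateField.mem_bot.1 hl
      exact D.map_algebraMap c
    rw [h0 D₀, h0 D₁, zero_mul, zero_mul]
  · have hb : IsAlgebraic (Algebra.adjoin ℂ (Set.range fun _ : Unit => a)) b := by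
      by_contra hb
      have h1 : AlgebraicIndependent ℂ (fun _ : Unit => a) :=
        algebraicIndependent_unique_type_iff.2 ha
      have h2 := (h1.option_iff_transcendental b).2 hb
      apply h
      have h3 := h2.comp (fun i : Fin 2 => if i = 0 then some () else none) (by
        intro i j hij
        fin_cases i <;> fin_cases j <;> simp_all)
      convert h3 using 1
      funext i
      fin_cases i <;> rfl
    have hb' : IsAlgebraic L b := by
      rw [Set.range_const] at hb
      exact IntermediateField.isAlgebraic_adjoin_iff.2 hb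
    have h1 := der_alg E L hL hb'
    rw [hE] at h1
    exact sub_eq_zero.1 h1

/-- the determinant is zero if all Jacobians of two coordinates are zero -/
theorem det_zero {Ω : Type} [Field Ω] [Algebra ℂ Ω] (D : Fin 2 → Derivation ℂ Ω Ω)
    (p c : Fin 4 → Ω) (h : ∀ i j, D 0 (p i) * D 1 (p j) = D 1 (p i) * D 0 (p j)) :
    (Pool.Agent.Y184.NT.rows c p D).det = 0 := by
  obtain ⟨u, v, huv, h0⟩ : ∃ u v : Ω, (u ≠ 0 ∨ v ≠ 0) ∧
      ∀ j, u * D 0 (p j) + v * D 1 (p j) = 0 := by
    by_cases hz : ∀ i, D 0 (p i) = 0
    · exact ⟨1, 0, Or.inl one_ne_zero, fun j => by rw [hz j]; ring⟩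
    · push Not at hz
      obtain ⟨i, hi⟩ := hz
      refine ⟨D 1 (p i), - D 0 (p i), Or.inr (neg_ne_zero.2 hi), fun j => ?_⟩
      rw [← h i j]
      ring
  apply Matrix.exists_vecMul_eq_zero_iff.1
  refine ⟨![0, 0, u, v], ?_, ?_⟩
  · intro h1
    have h2 := congrFun h1 2
    have h3 := congrFun h1 3
    simp only [Matrix.cons_val, Pi.zero_apply] at h2 h3
    rcases huv with h4 | h4
    · exact h4 h2
    · exact h4 h3
  · funext j
    rw [Matrix.vecMul, dotProduct, Fin.sum_univ_four]
    have e2 : Pool.Agent.Y184.NT.rows c p D 2 j = D 0 (p j) := rfl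
    have e3 : Pool.Agent.Y184.NT.rows c p D 3 j = D 1 (p j) := rfl
    simp only [Matrix.cons_val, Pi.zero_apply]
    rw [e2, e3]
    linear_combination h0 j

theorem nd_ : Pool.Agent.N162.CV.StND := by
  intro K Ω _ _ _ _ F d x hsm hF hd hx0 hxF hgen htr hrel D p c hp0 hpF hdet
  let e : MvPolynomial (Fin 4) ℂ →ₐ[ℂ] K := aeval x
  let f : MvPolynomial (Fin 4) ℂ →ₐ[ℂ] e.range := e.rangeRestrict
  have hf : Function.Surjective f := e.rangeRestrict_surjective
  let ψ : e.range →ₐ[ℂ] Ω := AlgHom.liftOfSurjective f hf (aeval p) (by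
    intro P hP
    have h1 : aeval x P = 0 := by
      have h2 := congrArg Subtype.val (show f P = 0 from hP)
      exact h2
    exact hrel P h1 Ω p hp0 hpF)
  have hψ : ∀ P, ψ (f P) = aeval p P := fun P => AlgHom.liftOfSurjective_apply f hf _ _ P
  have hB : Algebra.trdeg ℂ e.range ≤ (2 : ℕ) := by
    have h1 := trdeg_le_of_injective e.range.val Subtype.val_injective
    rw [htr] at h1
    simpa using h1
  have hinj : Function.Injective ψ := by
    by_contra hni
    apply hdet
    apply det_zero
    intro i j
    apply minor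
    intro hind
    apply drop ψ hB hni ![f (X i), f (X j)]
    have h1 : ψ ∘ ![f (X i), f (X j)] = ![p i, p j] := by
      funext l
      fin_cases l
      · exact (hψ (X i)).trans (aeval_X _ _)
      · exact (hψ (X j)).trans (aeval_X _ _)
    rw [h1]
    exact hind
  have hfr : IsFractionRing e.range K := by
    refine IsFractionRing.of_field _ _ fun z => ?_
    have h1 : z ∈ IntermediateField.adjoin ℂ (Set.range x) := by rw [hgen]; trivial
    obtain ⟨r, hr, s, hs, hz⟩ := IntermediateField.mem_adjoin_iff_div.1 h1
    rw [Algebra.adjoin_range_eq_range_aeval] at hr hs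
    exact ⟨⟨r, hr⟩, ⟨s, hs⟩, hz⟩
  refine ⟨IsFractionRing.liftAlgHom (K := K) hinj, fun j => ?_⟩
  have h1 : x j = algebraMap e.range K (f (X j)) := by
    change x j = aeval x (X j)
    rw [aeval_X]
  rw [h1, IsFractionRing.liftAlgHom_apply, IsFractionRing.lift_algebraMap]
  exact (hψ (X j)).trans (aeval_X _ _)

end Pool.Agent.N225.CV
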