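import Mathlib

/-!
The transcendence degree drops in a proper quotient.
-/

set_option autoImplicit false

namespace Pool.Agent.N225.CV

open MvPolynomial

theorem exists_relation {k R ι : Type} [Field k] [CommRing R] [IsDomain R] [Algebra k R]
    {r : ι → R} (hr : IsTranscendenceBasis k r) {h : R} (h0 : h ≠ 0) :
    ∃ P : MvPolynomial ι k, P ≠ 0 ∧ h ∣ aeval r P := by
  have := hr.isAlgebraic
  obtain ⟨a, ha, hd⟩ := (Algebra.IsAlgebraic.isAlgebraic (R := Algebra.adjoin k (Set.range r)) h).exists_nonzero_dvd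
    (mem_nonZeroDivisors_of_ne_zero h0)
  obtain ⟨P, hP⟩ : ∃ P : MvPolynomial ι k, aeval r P = (a : R) := by
    obtain ⟨a, h1⟩ := a
    rw [Algebra.adjoin_range_eq_range_aeval] at h1
    exact h1
  refine ⟨P, ?_, ?_⟩
  · rintro rfl
    rw [map_zero] at hP
    exact ha (Subtype.ext hP.symm)
  · rw [hP]
    exact hd

/-- The transcendence degree drops in a proper quotient. -/
theorem drop {k R S : Type} [Field k] [CommRing R] [IsDomain R] [Algebra k R] [CommRing S]
    [Algebra k S] (φ : R →ₐ[k] S) {n : ℕ} (hR : Algebra.trdeg k R ≤ n)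
    (hφ : ¬ Function.Injective φ) (s : Fin n → R) : ¬ AlgebraicIndependent k (φ ∘ s) := by
  intro hs
  have h1 : AlgebraicIndependent k s := AlgebraicIndependent.of_comp φ hs
  have h2 : IsTranscendenceBasis k s :=
    h1.isTranscendenceBasis_of_trdeg_le_of_finite (by simpa using hR)
  obtain ⟨h, hh, h0⟩ : ∃ h, φ h = 0 ∧ h ≠ 0 := by
    rw [injective_iff_map_eq_zero] at hφ
    push Not at hφ
    exact hφ
  obtain ⟨P, hP0, c, hc⟩ := exists_relation h2 h0
  have h3 : aeval (φ ∘ s) P = 0 := by
    have h4 := congrArg φ hc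
    rw [map_mul, hh, zero_mul] at h4
    rw [← h4]
    exact (MvPolynomial.comp_aeval_apply (R := k) (f := s) φ P).symm
  exact hP0 (hs (h3.trans (map_zero _).symm))

theorem trdeg_le_of {k S : Type} [Field k] [CommRing S] [Algebra k S] [Nontrivial S] {n : ℕ}
    (h : ∀ s : Fin (n + 1) → S, ¬ AlgebraicIndependent k s) : Algebra.trdeg k S ≤ n := by
  unfold Algebra.trdeg
  refine ciSup_le' fun s => ?_
  by_contra hlt
  push Not at hlt
  have h1 : ((n + 1 : ℕ) : Cardinal) ≤ Cardinal.mk s.1 := by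
    have := Order.succ_le_of_lt hlt
    rw [Cardinal.succ_natCast] at this
    push_cast
    exact this
  have h2 : Cardinal.mk (Fin (n + 1)) ≤ Cardinal.mk s.1 := by simpa using h1
  obtain ⟨e⟩ := Cardinal.le_def _ _ |>.1 h2
  exact h (fun i => (e i : S)) (s.2.comp e e.injective)

end Pool.Agent.N225.CV
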